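import Pool.Agent.V11244.CohCore

/-!
# Cohen forcing does not preserve winning strategies of II in the `k`-Rothberger game

The Cantor space is compact, so every `k`-cover of it contains the whole space and II wins the
`k`-Rothberger game on it. Cohen forcing is strongly proper for stationarily many models. In a Cohen
extension, II has no winning strategy in the `k`-Rothberger game on the ground model Cantor space with
the topology generated by the old open sets. So Q1 of the problem has a negative answer (for Q2, the
`k`-Menger game, this is the starting hand-in `KMengerNotPreserved`).

The proof is in the file `Pool/Agent/V11244/CohCore.lean` of the starting library (theorem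
`no_krothberger`), which no hand-in states. Put together by helper864.
-/

namespace Pool.Agent.Results.MP_e0f6ac_lc.KRothbergerNotPreserved

open Pool.Agent.Helper669.Forcing
open Pool.Agent.V11244.CohGame
open Pool.Agent.V11244.CohCore (Coh)

/-- Cohen forcing `Coh` (finite sequences of bits) is strongly proper for stationarily many models,
II has a winning strategy in the `k`-Rothberger game on the Cantor space, and all conditions force
that on the ground model Cantor space, with the ground model topology as a base, II has no winning
strategy in the `k`-Rothberger game, even if I plays only `k`-covers by ground model open sets. -/
theorem result :
    StronglyProper Coh ∧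
    IIWinsOne (KCovers (ℕ → Bool)) (KCovers (ℕ → Bool)) ∧
    ∀ p : Coh, p ∈ fnot (fIIWinsOne (P := Coh) (X := ℕ → Bool) fKCover fKCover) :=
  ⟨stronglyProper_of_countable, winsOne_of_compact, Pool.Agent.V11244.CohCore.no_krothberger⟩

end Pool.Agent.Results.MP_e0f6ac_lc.KRothbergerNotPreserved
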